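import Pool.Agent.Q36.AD.Main

set_option autoImplicit false

/-!
# Patterns of `p_t(m n + i)` against automatic sequences in arbitrary bases
-/

namespace Pool.Agent.Q36.AD

open PowerSeries Pool.Agent.TH693.PP

/-- `k`-automatic: the `k`-kernel is finite -/
def Auto (k : ℕ) (u : ℕ → ZMod 2) : Prop :=
  {b : ℕ → ZMod 2 | ∃ a r : ℕ, r < k ^ a ∧ b = fun n => u (k ^ a * n + r)}.Finite

theorem Auto.dil {k : ℕ} (hk : 0 < k) {u : ℕ → ZMod 2} (hu : Auto k u) (q e : ℕ) (he : e < q) :
    Auto k (fun n => u (q * n + e)) := by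
  have hq : 0 < q := by omega
  have h1 : {b : ℕ → ZMod 2 | ∃ a r : ℕ, r < k ^ a ∧ b = fun n => u (q * (k ^ a * n + r) + e)} ⊆
      (fun z : (ℕ → ZMod 2) × ℕ => fun n => z.1 (q * n + z.2)) ''
        ({b : ℕ → ZMod 2 | ∃ a r : ℕ, r < k ^ a ∧ b = fun n => u (k ^ a * n + r)} ×ˢ
          Set.Iio q) := by
    rintro _ ⟨a, r, hr, rfl⟩
    have hka : 0 < k ^ a := Nat.pow_pos hk
    refine ⟨(fun n => u (k ^ a * n + (q * r + e) % k ^ a), (q * r + e) / k ^ a),
      ⟨⟨a, (q * r + e) % k ^ a, Nat.mod_lt _ hka, rfl⟩, ?_⟩, ?_⟩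
    · rw [Set.mem_Iio, Nat.div_lt_iff_lt_mul hka]
      have h2 : q * (r + 1) ≤ q * k ^ a := Nat.mul_le_mul_left _ hr
      rw [mul_add, mul_one] at h2
      omega
    · funext n
      simp only
      congr 1
      have h3 := Nat.div_add_mod (q * r + e) (k ^ a)
      calc k ^ a * (q * n + (q * r + e) / k ^ a) + (q * r + e) % k ^ a =
          q * (k ^ a * n) + (k ^ a * ((q * r + e) / k ^ a) + (q * r + e) % k ^ a) := by ring
        _ = q * (k ^ a * n) + (q * r + e) := by rw [h3]
        _ = q * (k ^ a * n + r) + e := by ring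
  exact ((hu.prod (Set.finite_Iio q)).image _).subset h1

theorem Auto.add {k : ℕ} {u v : ℕ → ZMod 2} (hu : Auto k u) (hv : Auto k v) :
    Auto k (fun n => u n + v n) := by
  have h1 : {b : ℕ → ZMod 2 | ∃ a r : ℕ, r < k ^ a ∧
      b = fun n => u (k ^ a * n + r) + v (k ^ a * n + r)} ⊆
      (fun z : (ℕ → ZMod 2) × (ℕ → ZMod 2) => fun n => z.1 n + z.2 n) ''
        ({b : ℕ → ZMod 2 | ∃ a r : ℕ, r < k ^ a ∧ b = fun n => u (k ^ a * n + r)} ×ˢ
          {b : ℕ → ZMod 2 | ∃ a r : ℕ, r < k ^ a ∧ b = fun n => v (k ^ a * n + r)}) := by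
    rintro _ ⟨a, r, hr, rfl⟩
    exact ⟨(fun n => u (k ^ a * n + r), fun n => v (k ^ a * n + r)),
      ⟨⟨a, r, hr, rfl⟩, ⟨a, r, hr, rfl⟩⟩, rfl⟩
  exact ((Set.Finite.prod hu hv).image _).subset h1

/-- two equal elements of the kernel -/
theorem Auto.eq {k : ℕ} (hk : 0 < k) {u : ℕ → ZMod 2} (hu : Auto k u) :
    ∃ a b : ℕ, a < b ∧ ∀ n, u (k ^ a * n) = u (k ^ b * n) := by
  by_contra hcon
  push Not at hcon
  have hinj : Function.Injective fun (a : ℕ) => (fun n => u (k ^ a * n)) := by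
    intro a b hab
    rcases lt_trichotomy a b with h | h | h
    · obtain ⟨n, hn⟩ := hcon a b h
      exact absurd (congrFun hab n) hn
    · exact h
    · obtain ⟨n, hn⟩ := hcon b a h
      exact absurd (congrFun hab n).symm hn
  refine Set.infinite_range_of_injective hinj (hu.subset ?_)
  rintro _ ⟨a, rfl⟩
  exact ⟨a, 0, Nat.pow_pos hk, by funext n; rw [add_zero]⟩

theorem bases {t : ℕ} (ht : Odd t) (l : ℕ) : ∀ (k : Fin l → ℕ) (_ : ∀ z, 2 ≤ k z)
    (u : Fin l → ℕ → ZMod 2) (_ : ∀ z, Auto (k z) (u z)) (S : Finset ℕ) (_ : 0 ∉ S),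
    ∃ C : ℕ, ∀ (K : ℕ) (c : ℕ → ℕ → ZMod 2), (∃ m ∈ S, ∃ i < K, c m i ≠ 0) →
      ∀ (κ : ZMod 2) (A : ℕ), ∃ n, A ≤ n ∧ n ≤ C * (A + K) ∧
        ∑ m ∈ S, ∑ i ∈ Finset.range K, c m i * coeff (m * n + i) (Pool.Agent.TH693.PP.P ^ t) +
          ∑ z, u z n = κ := by
  classical
  induction l with
  | zero =>
    intro k hk u hu S h0
    obtain ⟨C, hC⟩ := dilates ht S h0 1 one_pos
    refine ⟨C, fun K c hc κ A => ?_⟩
    obtain ⟨n, h1, h2, -, h3⟩ := hC K c 0 hc κ A
    exact ⟨n, h1, h2, by rw [Finset.sum_of_isEmpty (Finset.univ : Finset (Fin 0)), add_zero, h3]⟩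
  | succ l ih =>
    intro k hk u hu S h0
    have hkp : ∀ z, 0 < k z := fun z => by have := hk z; omega
    obtain ⟨a, b, hab, heq⟩ := (hu 0).eq (hkp 0)
    set p := k 0 ^ a with hp
    set q := k 0 ^ b with hq
    have hp0 : 0 < p := Nat.pow_pos (hkp 0)
    have hpq : p < q := Nat.pow_lt_pow_right (by have := hk 0; omega) hab
    have hq0 : 0 < q := by omega
    set S' := S.image (fun m => p * m) ∪ S.image (fun m => q * m) with hS'
    have h0' : 0 ∉ S' := by
      rw [hS', Finset.mem_union, Finset.mem_image, Finset.mem_image]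
      rintro (⟨m, hm, h⟩ | ⟨m, hm, h⟩)
      · rcases Nat.mul_eq_zero.1 h with h | h
        · omega
        · exact h0 (h ▸ hm)
      · rcases Nat.mul_eq_zero.1 h with h | h
        · omega
        · exact h0 (h ▸ hm)
    obtain ⟨C, hC⟩ := ih (fun z => k z.succ) (fun z => hk _)
      (fun z n => u z.succ (p * n + 0) + u z.succ (q * n + 0))
      (fun z => ((hu z.succ).dil (hkp _) p 0 hp0).add ((hu z.succ).dil (hkp _) q 0 hq0)) S' h0'
    refine ⟨q * C, fun K c hc κ A => ?_⟩
    by_contra hcon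
    push Not at hcon
    have hne : ∀ x y : ZMod 2, x ≠ y → x = y + 1 := by decide
    set f : ℕ → ZMod 2 := fun n => ∑ m ∈ S, ∑ i ∈ Finset.range K,
      c m i * coeff (m * n + i) (Pool.Agent.TH693.PP.P ^ t) with hf
    have hrun : ∀ n, A ≤ n → n ≤ q * C * (A + K) → f n + (u 0 n + ∑ z : Fin l, u z.succ n) = κ + 1 := by
      intro n h1 h2
      have h3 := hne _ _ (hcon n h1 h2)
      rw [Fin.sum_univ_succ] at h3
      exact h3
    set c' : ℕ → ℕ → ZMod 2 := fun m' i => ∑ m ∈ S, ((if p * m = m' then c m i else 0) +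
      if q * m = m' then c m i else 0) with hc'
    have hsum : ∀ n, ∑ m' ∈ S', ∑ i ∈ Finset.range K,
        c' m' i * coeff (m' * n + i) (Pool.Agent.TH693.PP.P ^ t) = f (p * n) + f (q * n) := by
      intro n
      rw [hf]
      simp only
      rw [← Finset.sum_add_distrib]
      have e1 : ∀ m' ∈ S', ∑ i ∈ Finset.range K,
          c' m' i * coeff (m' * n + i) (Pool.Agent.TH693.PP.P ^ t) =
          ∑ m ∈ S, ∑ i ∈ Finset.range K, ((if p * m = m' then
            c m i * coeff (m * (p * n) + i) (Pool.Agent.TH693.PP.P ^ t) else 0) +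
            if q * m = m' then c m i * coeff (m * (q * n) + i) (Pool.Agent.TH693.PP.P ^ t) else 0) := by
        intro m' _
        rw [Finset.sum_comm]
        refine Finset.sum_congr rfl fun i _ => ?_
        rw [hc']
        simp only
        rw [Finset.sum_mul]
        refine Finset.sum_congr rfl fun m _ => ?_
        rw [add_mul]
        congr 1
        · split_ifs with h
          · rw [← h, show p * m * n = m * (p * n) by ring]
          · rw [zero_mul]
        · split_ifs with h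
          · rw [← h, show q * m * n = m * (q * n) by ring]
          · rw [zero_mul]
      rw [Finset.sum_congr rfl e1, Finset.sum_comm]
      refine Finset.sum_congr rfl fun m hm => ?_
      rw [Finset.sum_comm, ← Finset.sum_add_distrib]
      refine Finset.sum_congr rfl fun i _ => ?_
      rw [Finset.sum_add_distrib, Finset.sum_ite_eq, Finset.sum_ite_eq, if_pos, if_pos]
      · rw [hS', Finset.mem_union]
        exact Or.inr (Finset.mem_image_of_mem _ hm)
      · rw [hS', Finset.mem_union]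
        exact Or.inl (Finset.mem_image_of_mem _ hm)
    -- the smallest dilate
    obtain ⟨m0, ⟨hm0, i0, hi0, hci0⟩, hmin⟩ : ∃ m, (m ∈ S ∧ ∃ i < K, c m i ≠ 0) ∧
        ∀ m', m' < m → ¬ (m' ∈ S ∧ ∃ i < K, c m' i ≠ 0) := by
      have hex : ∃ m, m ∈ S ∧ ∃ i < K, c m i ≠ 0 := by
        obtain ⟨m, hm, h⟩ := hc
        exact ⟨m, hm, h⟩
      exact ⟨Nat.find hex, Nat.find_spec hex, fun m' h => Nat.find_min hex h⟩
    have hm0p : 0 < m0 := Nat.pos_of_ne_zero fun h => h0 (h ▸ hm0)
    have hcne : c' (p * m0) i0 ≠ 0 := by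
      have e2 : c' (p * m0) i0 = c m0 i0 := by
        rw [hc']
        simp only
        rw [Finset.sum_eq_single m0]
        · rw [if_pos rfl, if_neg, add_zero]
          intro h
          have := Nat.mul_lt_mul_of_pos_right hpq hm0p
          omega
        · intro m hm hne'
          rw [if_neg, zero_add]
          · split_ifs with h
            · by_contra hcm
              refine hmin m ?_ ⟨hm, i0, hi0, hcm⟩
              have h4 : p * m < p * m0 := by
                have hmp : 0 < m := Nat.pos_of_ne_zero fun h => h0 (h ▸ hm)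
                calc p * m < q * m := Nat.mul_lt_mul_of_pos_right hpq hmp
                  _ = p * m0 := h
              exact lt_of_mul_lt_mul_left h4 (Nat.zero_le _)
            · rfl
          · intro h
            exact hne' (Nat.eq_of_mul_eq_mul_left hp0 h)
        · intro h
          exact absurd hm0 h
      rw [e2]
      exact hci0
    obtain ⟨n, h1, h2, h3⟩ := hC K c' ⟨p * m0, by
      rw [hS', Finset.mem_union]
      exact Or.inl (Finset.mem_image_of_mem _ hm0), i0, hi0, hcne⟩ 1 A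
    rw [hsum] at h3
    have r1 := hrun (p * n) (h1.trans (Nat.le_mul_of_pos_left _ hp0)) (by
      calc p * n ≤ q * n := Nat.mul_le_mul_right _ hpq.le
        _ ≤ q * (C * (A + K)) := Nat.mul_le_mul_left _ h2
        _ = q * C * (A + K) := by ring)
    have r2 := hrun (q * n) (h1.trans (Nat.le_mul_of_pos_left _ hq0)) (by
      calc q * n ≤ q * (C * (A + K)) := Nat.mul_le_mul_left _ h2
        _ = q * C * (A + K) := by ring)
    simp only [add_zero] at h3
    rw [Finset.sum_add_distrib] at h3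
    have h5 := heq n
    have key : ∀ f1 f2 v1 v2 w k' : ZMod 2, f1 + (w + v1) = k' + 1 → f2 + (w + v2) = k' + 1 →
        f1 + f2 + (v1 + v2) = 1 → False := by decide
    rw [h5] at r1
    exact key _ _ _ _ _ _ r1 r2 h3

theorem bases_prog {t : ℕ} (ht : Odd t) (l : ℕ) (k : Fin l → ℕ) (hk : ∀ z, 2 ≤ k z)
    (u : Fin l → ℕ → ZMod 2) (hu : ∀ z, Auto (k z) (u z)) (M : ℕ) (hM : 0 < M) :
    ∃ C : ℕ, ∀ (K : ℕ) (c : ℕ → ZMod 2) (ρ : ℕ), (∃ i < K, c i ≠ 0) →
      ∀ (κ : ZMod 2) (A : ℕ), ∃ n, A ≤ n ∧ n ≤ C * (A + K) ∧ n % M = ρ % M ∧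
        ∑ i ∈ Finset.range K, c i * coeff (n + i) (Pool.Agent.TH693.PP.P ^ t) + ∑ z, u z n = κ := by
  classical
  have hkp : ∀ z, 0 < k z := fun z => by have := hk z; omega
  have h1 := fun ρ : Fin M => bases ht l k hk (fun z n => u z (M * n + ρ))
    (fun z => (hu z).dil (hkp z) M ρ ρ.2) {M} (by simp [hM.ne])
  choose C hC using h1
  refine ⟨M * ((∑ ρ, C ρ) * (M + 1)) + M, fun K c ρ hc κ A => ?_⟩
  have hlt : ρ % M < M := Nat.mod_lt _ hM
  set r : Fin M := ⟨ρ % M, hlt⟩ with hr
  have hK : 0 < K := by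
    obtain ⟨i, hi, -⟩ := hc
    omega
  obtain ⟨n, h2, h3, h4⟩ := hC r (K + M) (fun _ j => if (r : ℕ) ≤ j ∧ j - r < K then c (j - r) else 0)
    (by
      obtain ⟨i, hi, hci⟩ := hc
      refine ⟨M, Finset.mem_singleton_self _, r + i, by omega, ?_⟩
      rw [if_pos ⟨by omega, by omega⟩, Nat.add_sub_cancel_left]
      exact hci) κ A
  have hCr : C r ≤ ∑ ρ, C ρ :=
    Finset.single_le_sum (f := C) (fun _ _ => Nat.zero_le _) (Finset.mem_univ r)
  refine ⟨M * n + r, ?_, ?_, ?_, ?_⟩
  · have : n ≤ M * n := Nat.le_mul_of_pos_left _ hM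
    omega
  · have h5 : n ≤ (∑ ρ, C ρ) * (M + 1) * (A + K) := by
      refine h3.trans ((Nat.mul_le_mul_right _ hCr).trans ?_)
      rw [mul_assoc]
      apply Nat.mul_le_mul_left
      nlinarith [Nat.mul_le_mul_left M (by omega : 1 ≤ A + K)]
    have h6 : M * n ≤ M * ((∑ ρ, C ρ) * (M + 1) * (A + K)) := Nat.mul_le_mul_left _ h5
    have h7 : (r : ℕ) ≤ M * (A + K) := by
      have h8 : (r : ℕ) < M := r.2
      have h9 : M * 1 ≤ M * (A + K) := Nat.mul_le_mul_left _ (by omega)
      omega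
    calc M * n + r ≤ M * ((∑ ρ, C ρ) * (M + 1) * (A + K)) + M * (A + K) := Nat.add_le_add h6 h7
      _ = (M * ((∑ ρ, C ρ) * (M + 1)) + M) * (A + K) := by ring
  · rw [Nat.mul_add_mod, hr]
    exact Nat.mod_mod _ _
  · rw [← h4, Finset.sum_singleton]
    congr 1
    rw [show K + M = r + (K + (M - r)) by have := r.2; omega, Finset.sum_range_add,
      Finset.sum_range_add]
    have z1 : ∑ x ∈ Finset.range (r : ℕ), (if (r : ℕ) ≤ x ∧ x - r < K then c (x - r) else 0) *
        coeff (M * n + x) (Pool.Agent.TH693.PP.P ^ t) = 0 := by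
      apply Finset.sum_eq_zero
      intro x hx
      rw [Finset.mem_range] at hx
      rw [if_neg (by omega), zero_mul]
    have z2 : ∑ x ∈ Finset.range (M - (r : ℕ)),
        (if (r : ℕ) ≤ r + (K + x) ∧ r + (K + x) - r < K then c (r + (K + x) - r) else 0) *
          coeff (M * n + (r + (K + x))) (Pool.Agent.TH693.PP.P ^ t) = 0 := by
      apply Finset.sum_eq_zero
      intro x _
      rw [if_neg (by omega), zero_mul]
    rw [z1, z2, zero_add, add_zero]
    refine Finset.sum_congr rfl fun x hx => ?_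
    rw [Finset.mem_range] at hx
    rw [Nat.add_sub_cancel_left, if_pos ⟨by omega, hx⟩, add_assoc]

end Pool.Agent.Q36.AD
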