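import Pool.Agent.Q36.AU.Main

set_option autoImplicit false

/-!
# The components of a relation between functions in `X ^ (e / 24) K`
-/

namespace Pool.Agent.Q36.AD

open PowerSeries Pool.Agent.TH693.PP Pool.Agent.TH693.QQ Pool.Agent.H397R2.PP Pool.Agent.Y517.PT
open Pool.Agent.Y627.PT Pool.Agent.Q36.AU

/-- the components of a combination of functions in `X ^ (e / 24) K` that is algebraic over `F_2(X)` -/
theorem alg_comb2 {J : Type} [Fintype J] (g : J → S) (t : J → ℕ) (hAL : ∀ j, ALX (g j) (t j))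
    (a : J → F) (halg : AlgX (∑ j, io (a j) * g j)) (E : ℕ) :
    (∑ j, (if t j ≤ E ∧ 24 ∣ E - t j then
      io (Polynomial.monomial ((E - t j) / 24) ((a j).coeff ((E - t j) / 24))) * g j else 0)) = 0 ∨
    ∃ M : ℕ, 24 * M = E ∧ (∑ j, (if t j ≤ E ∧ 24 ∣ E - t j then
      io (Polynomial.monomial ((E - t j) / 24) ((a j).coeff ((E - t j) / 24))) * g j else 0)) =
        X ^ M := by
  classical
  have hDb : ¬ AlgX Db := QC.qc
  obtain ⟨xi, hxi⟩ : ∃ xi : Om, xi ^ 24 = e (T5.jj X) :=
    IsAlgClosed.exists_pow_nat_eq (e (T5.jj X)) (by norm_num)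
  set d : Om := e (T5.jj Db) with hd
  have hejj : Function.Injective (fun s : S => e (T5.jj s)) := by
    intro s s' h
    exact T5.jj_inj (e.toRingHom.injective h)
  have hX : e (T5.jj X) ∉ QE2.cl (ZMod 2) {d} := fun h => X_notMem hDb (cl_comap e h)
  have hxiK : xi ∉ QE2.cl (ZMod 2) {d} := fun h => hX (hxi ▸ QE2.pow_mem' h 24)
  have hxi0 : xi ≠ 0 := by
    rintro rfl
    rw [zero_pow (by norm_num)] at hxi
    have h1 : T5.jj X = 0 := (map_eq_zero e.toRingHom).1 hxi.symm
    rw [map_eq_zero_iff T5.jj T5.jj_inj] at h1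
    exact PowerSeries.X_ne_zero h1
  set de : J → Om := fun j => e (T5.jj (g j)) / xi ^ t j with hde
  have hdeK : ∀ j, de j ∈ QE2.cl (ZMod 2) {d} := by
    intro j
    apply QE2.of_pow_mem (n := 24) (by norm_num)
    have h1 := cl_map e (T5.mem_of_AL (hAL j))
    have h2 : de j ^ 24 = e (algebraMap Sk Lk (ik (g j)) ^ 24 /
        algebraMap Sk Lk X ^ t j) := by
      rw [map_div₀, map_pow, map_pow, hde]
      simp only
      rw [div_pow, ← pow_mul, mul_comm (t j) 24, pow_mul, hxi, T5.jj_X]
      rfl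
    rw [h2]
    exact h1
  have hdex : ∀ j, de j * xi ^ t j = e (T5.jj (g j)) := by
    intro j
    rw [hde]
    exact div_mul_cancel₀ _ (pow_ne_zero _ hxi0)
  -- the polynomial
  set q : F → Polynomial Om := fun f => Polynomial.expand Om 24 (f.map (algebraMap (ZMod 2) Om))
    with hq
  set Q : Polynomial Om :=
    ∑ j, Polynomial.C (de j) * (Polynomial.X ^ t j * q (a j)) with hQ
  have hqK : ∀ (f : F) (n : ℕ), (q f).coeff n ∈ Kc (ZMod 2) d := by
    intro f n
    rw [hq]
    simp only
    rw [Polynomial.coeff_expand (by norm_num)]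
    split_ifs with h
    · rw [Polynomial.coeff_map]
      have h1 : algebraMap (ZMod 2) Om (f.coeff (n / 24)) =
        algebraMap (Algebra.adjoin (ZMod 2) {d}) Om
          (algebraMap (ZMod 2) (Algebra.adjoin (ZMod 2) {d}) (f.coeff (n / 24))) := rfl
      rw [h1]
      exact Subalgebra.algebraMap_mem _ _
    · exact Subalgebra.zero_mem _
  have hQK : ∀ n, Q.coeff n ∈ QE2.cl (ZMod 2) {d} := by
    intro n
    rw [← mem_Kc, hQ, Polynomial.finsetSum_coeff]
    refine Subalgebra.sum_mem _ fun j _ => ?_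
    rw [Polynomial.coeff_C_mul, Polynomial.coeff_X_pow_mul']
    refine Subalgebra.mul_mem _ (mem_Kc.2 (hdeK j)) ?_
    split_ifs
    · exact hqK _ _
    · exact Subalgebra.zero_mem _
  have hQx : Q.eval xi = e (T5.jj (∑ j, io (a j) * g j)) := by
    rw [hQ, Polynomial.eval_finsetSum, map_sum, map_sum]
    refine Finset.sum_congr rfl fun j _ => ?_
    rw [Polynomial.eval_mul, Polynomial.eval_mul, Polynomial.eval_C, Polynomial.eval_pow,
      Polynomial.eval_X, ← mul_assoc, hdex, map_mul, map_mul, mul_comm]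
    congr 1
    exact (eval_io xi hxi (a j)).symm
  have hQcl : Q.eval xi ∈ QE2.cl (ZMod 2) {xi} := by
    rw [hQx]
    have h1 := cl_map e (T5.mem_of_algX halg)
    refine QE2.cl_cl ?_ h1
    rintro _ rfl
    rw [← hxi]
    exact QE2.pow_mem' (QE2.self_mem (Set.mem_singleton _)) 24
  have hQ0 : ∀ E, Q.coeff E ∈ K0 (ZMod 2) Om := coeff_alg hxiK Q hQK hQcl
  -- the components
  have hmon : ∀ (n : ℕ) (c : ZMod 2), e (T5.jj (io (Polynomial.monomial n c))) =
      algebraMap (ZMod 2) Om c * xi ^ (24 * n) := by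
    intro n c
    rw [← Polynomial.C_mul_X_pow_eq_monomial, map_mul, map_pow, QE2.io_C, QE2.io_X, map_mul,
      map_mul, map_pow, map_pow, T5.jj.commutes, e.commutes, pow_mul, hxi]
  set co : S := ∑ j, (if t j ≤ E ∧ 24 ∣ E - t j then
      io (Polynomial.monomial ((E - t j) / 24) ((a j).coeff ((E - t j) / 24))) * g j else 0) with hco
  have hcoE : e (T5.jj co) = Q.coeff E * xi ^ E := by
    rw [hco]
    rw [map_sum, map_sum, hQ, Polynomial.finsetSum_coeff, Finset.sum_mul]
    refine Finset.sum_congr rfl fun j _ => ?_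
    rw [Polynomial.coeff_C_mul, Polynomial.coeff_X_pow_mul']
    by_cases h2 : t j ≤ E
    · rw [if_pos h2, hq]
      simp only
      rw [Polynomial.coeff_expand (by norm_num)]
      by_cases h3 : 24 ∣ E - t j
      · obtain ⟨k, hk⟩ := h3
        rw [if_pos ⟨h2, ⟨k, hk⟩⟩, if_pos ⟨k, hk⟩, hk, Nat.mul_div_cancel_left k (by norm_num),
          Polynomial.coeff_map, map_mul, map_mul, hmon, ← hdex]
        have hE : E = 24 * k + t j := by omega
        rw [hE, pow_add]
        ring
      · rw [if_neg (fun h4 => h3 h4.2), if_neg h3, map_zero, map_zero, mul_zero, zero_mul]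
    · rw [if_neg (fun h4 => h2 h4.1), if_neg h2, map_zero, map_zero, mul_zero, zero_mul]
  by_cases h0 : co = 0
  · exact Or.inl h0
  · right
    have h1 : Q.coeff E ≠ 0 := by
      intro h2
      apply h0
      apply hejj
      simp only
      rw [hcoE, h2, zero_mul, map_zero, map_zero]
    obtain ⟨n, hn, hn1⟩ := QE2.root_of_unity h1 (mem_cl_empty.2 (mem_K0.1 (hQ0 E)))
    have hpow : co ^ (24 * n) = X ^ (E * n) := by
      apply hejj
      simp only
      rw [map_pow, map_pow, hcoE, mul_pow, mul_comm 24 n, pow_mul, hn1, one_pow, one_mul,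
        ← pow_mul, map_pow, map_pow, ← hxi, ← pow_mul]
      congr 1
      ring
    obtain ⟨M, hM⟩ : ∃ m, co = X ^ m := eq_X_pow (N := 24 * n) (L := E * n) (by omega) hpow
    refine ⟨M, ?_, hM⟩
    rw [hM, ← pow_mul] at hpow
    have h2 := congrArg PowerSeries.order hpow
    rw [PowerSeries.order_X_pow, PowerSeries.order_X_pow] at h2
    have h3 : M * (24 * n) = E * n := by exact_mod_cast h2
    have hn0 : 0 < n := by omega
    have h4 : (24 * M) * n = E * n := by rw [← h3]; ring
    exact Nat.eq_of_mul_eq_mul_right hn0 h4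

/-- the components of a relation -/
theorem comp_rel {J : Type} [Fintype J] (G : J → S) (τ : J → ℤ) (hG : ∀ j, Sec (G j) (τ j))
    (m i e' : J → ℕ) (B M : ℕ) (hB0 : B ≠ 0) (he : ∀ j, B = m j * e' j) (hi : ∀ j, i j < m j)
    (hM : 0 < M) (c : J × Fin M → F) (α : S) (hα : AlgX α)
    (hrel : ∑ j : J × Fin M, io (c j) * proj M j.2 (fn (G j.1) (m j.1) (i j.1)) + α = 0)
    (j0 : J) (h24 : ¬ (24 : ℤ) ∣ τ j0) (l0 : ℕ) (Mt : J → Prop) [DecidablePred Mt] (lo : J → ℕ)
    (hMt : ∀ (j : J) (l : ℕ), (e' j : ℤ) * (τ j - 24 * i j + 24 * m j * l) =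
      e' j0 * (τ j0 - 24 * i j0 + 24 * m j0 * l0) ↔ Mt j ∧ l = lo j) :
    ∑ j : J × Fin M, (if Mt j.1 then io (Polynomial.monomial (lo j.1) ((c j).coeff (lo j.1))) *
      proj M j.2 (fn (G j.1) (m j.1) (i j.1)) else 0) = 0 := by
  classical
  have hX : ex B hB0 X = X ^ B := PowerSeries.expand_X B hB0
  have hBp : 0 < B := Nat.pos_of_ne_zero hB0
  have he0 : ∀ j, e' j ≠ 0 := by
    intro j h
    have := he j
    rw [h, mul_zero] at this
    exact hB0 this
  have hm0 : ∀ j, 0 < m j := fun j => by have := hi j; omega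
  have hie : ∀ j, i j * e' j < B := by
    intro j
    rw [he j]
    exact Nat.mul_lt_mul_of_pos_right (hi j) (Nat.pos_of_ne_zero (he0 j))
  obtain ⟨k0, hk0⟩ : ∃ k0 : ℕ, ∀ j, 0 ≤ 24 * (k0 : ℤ) + e' j * τ j := by
    refine ⟨∑ j, (e' j * τ j).natAbs, fun j => ?_⟩
    have h1 : (e' j * τ j).natAbs ≤ ∑ j, (e' j * τ j).natAbs :=
      Finset.single_le_sum (f := fun j => (e' j * τ j).natAbs) (fun _ _ => Nat.zero_le _)
        (Finset.mem_univ j)
    omega
  set s : J → ℕ := fun j => (24 * (k0 : ℤ) + e' j * τ j).toNat with hs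
  have hsz : ∀ j, (s j : ℤ) = 24 * k0 + e' j * τ j := fun j => Int.toNat_of_nonneg (hk0 j)
  set g : J × Fin M → S := fun j =>
    X ^ k0 * ex (e' j.1) (he0 j.1) (proj (m j.1 * M) (m j.1 * j.2 + i j.1) (G j.1)) with hg
  have hgX : ∀ j : J × Fin M, X ^ k0 * (X ^ (i j.1 * e' j.1) *
      ex B hB0 (proj M j.2 (fn (G j.1) (m j.1) (i j.1)))) = g j := fun j => by
    rw [fn_rel (G j.1) (m j.1) (i j.1) (e' j.1) j.2 M B (by rw [he j.1]; ring) hB0 (he0 j.1) (hi j.1)]
  have hALX : ∀ j : J × Fin M, ALX (g j) (s j.1) := by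
    intro j
    apply alx_of_az
    rw [hsz, hg]
    simp only
    rw [map_mul, map_pow]
    exact az_mul (az_x k0) (az_ex (he0 j.1) (hG j.1 _ _ (Nat.mul_pos (hm0 j.1) hM)))
  set A : J × Fin M → F := fun j =>
    Polynomial.X ^ (B - i j.1 * e' j.1) * Polynomial.expand (ZMod 2) B (c j) with hA
  have hsum : ∑ j, io (A j) * g j = X ^ (B + k0) * ex B hB0 α := by
    have h5 : ∀ j : J × Fin M, io (A j) * g j = X ^ (B + k0) *
        ex B hB0 (io (c j) * proj M j.2 (fn (G j.1) (m j.1) (i j.1))) := by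
      intro j
      rw [← hgX, hA]
      simp only
      rw [map_mul, map_pow, QE2.io_X, ← ex_io B hB0, map_mul]
      have h6 : (X : S) ^ (B + k0) = X ^ (B - i j.1 * e' j.1) * X ^ (i j.1 * e' j.1) * X ^ k0 := by
        rw [← pow_add, ← pow_add]
        congr 1
        have := hie j.1
        omega
      rw [h6]
      ring
    have h7 : ∑ j : J × Fin M, io (c j) * proj M j.2 (fn (G j.1) (m j.1) (i j.1)) = α := by
      have h8 : ∀ a b : S, a + b = 0 → a = b := by
        intro a b hab
        have h9 : b + b = 0 := by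
          ext n
          rw [map_add, map_zero]
          exact (by decide : ∀ a : ZMod 2, a + a = 0) _
        calc a = a + (b + b) := by rw [h9, add_zero]
          _ = (a + b) + b := by ring
          _ = b := by rw [hab, zero_add]
      exact h8 _ _ hrel
    rw [Finset.sum_congr rfl fun j _ => h5 j, ← Finset.mul_sum, ← map_sum, h7]
  have halg : AlgX (∑ j, io (A j) * g j) := by
    rw [hsum]
    refine algX_mul ?_ (algX_ex B hB0 hα)
    have := algX_io (Polynomial.X ^ (B + k0))
    rwa [map_pow, QE2.io_X] at this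
  -- the exponent
  set E : ℕ := s j0 + 24 * (B - i j0 * e' j0 + B * l0) with hE
  have hEz : (E : ℤ) = 24 * k0 + 24 * B + e' j0 * (τ j0 - 24 * i j0 + 24 * m j0 * l0) := by
    have h1 := (hie j0).le
    have h2 : (B : ℤ) = m j0 * e' j0 := by exact_mod_cast he j0
    rw [hE]
    push_cast [h1]
    rw [hsz]
    linear_combination (24 * (l0 : ℤ)) * h2
  have hmatch : ∀ j l, E = s j + 24 * (B - i j * e' j + B * l) ↔ Mt j ∧ l = lo j := by
    intro j l
    rw [← hMt]
    have h1 := (hie j).le
    have h2 : (B : ℤ) = m j * e' j := by exact_mod_cast he j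
    have h3 : ((s j + 24 * (B - i j * e' j + B * l) : ℕ) : ℤ) =
        24 * k0 + 24 * B + e' j * (τ j - 24 * i j + 24 * m j * l) := by
      push_cast [h1]
      rw [hsz]
      linear_combination (24 * (l : ℤ)) * h2
    rw [← Nat.cast_inj (R := ℤ), h3, hEz]
    constructor <;> intro h <;> linarith
  have hterm : ∀ j : J × Fin M, (if s j.1 ≤ E ∧ 24 ∣ E - s j.1 then
      io (Polynomial.monomial ((E - s j.1) / 24) ((A j).coeff ((E - s j.1) / 24))) * g j else 0) =
      X ^ (B + k0) * ex B hB0 (if Mt j.1 then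
        io (Polynomial.monomial (lo j.1) ((c j).coeff (lo j.1))) *
          proj M j.2 (fn (G j.1) (m j.1) (i j.1)) else 0) := by
    intro j
    by_cases hMj : Mt j.1
    · have h1 := (hmatch j.1 (lo j.1)).2 ⟨hMj, rfl⟩
      have h2 : E - s j.1 = 24 * (B - i j.1 * e' j.1 + B * lo j.1) := by omega
      rw [if_pos hMj, h2, if_pos ⟨by omega, ⟨_, rfl⟩⟩, Nat.mul_div_cancel_left _ (by norm_num)]
      have h3 : (A j).coeff (B - i j.1 * e' j.1 + B * lo j.1) = (c j).coeff (lo j.1) := by
        rw [hA]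
        simp only
        rw [Polynomial.coeff_X_pow_mul', if_pos (by omega), Nat.add_sub_cancel_left,
          mul_comm B, Polynomial.coeff_expand_mul hBp]
      rw [h3, map_mul, ex_io, Polynomial.expand_monomial, ← hgX]
      have h4 : io (Polynomial.monomial (B - i j.1 * e' j.1 + B * lo j.1) ((c j).coeff (lo j.1))) =
          X ^ (B - i j.1 * e' j.1) * io (Polynomial.monomial (lo j.1 * B) ((c j).coeff (lo j.1))) := by
        rw [← QE2.io_X, ← map_pow, ← map_mul, Polynomial.X_pow_mul_monomial]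
        congr 2
        ring
      rw [h4]
      have h6 : (X : S) ^ (B + k0) = X ^ (B - i j.1 * e' j.1) * X ^ (i j.1 * e' j.1) * X ^ k0 := by
        rw [← pow_add, ← pow_add]
        congr 1
        have := hie j.1
        omega
      rw [h6]
      ring
    · rw [if_neg hMj, map_zero, mul_zero]
      split_ifs with h1
      · obtain ⟨h1, k, hk⟩ := h1
        rw [hk, Nat.mul_div_cancel_left _ (by norm_num)]
        have h3 : (A j).coeff k = 0 := by
          rw [hA]
          simp only
          rw [Polynomial.coeff_X_pow_mul']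
          split_ifs with h4
          · rw [Polynomial.coeff_expand hBp]
            split_ifs with h5
            · exfalso
              obtain ⟨l, hl⟩ := h5
              apply hMj
              exact ((hmatch j.1 l).1 (by omega)).1
            · rfl
          · rfl
        rw [h3, Polynomial.monomial_zero_right, map_zero, zero_mul]
      · rfl
  have hfin := alg_comb2 g (fun j => s j.1) hALX A halg E
  rw [Finset.sum_congr rfl fun j _ => hterm j, ← Finset.mul_sum, ← map_sum] at hfin
  rcases hfin with h1 | ⟨N, hN, h1⟩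
  · have h2 := (mul_eq_zero.1 h1).resolve_left (pow_ne_zero _ PowerSeries.X_ne_zero)
    exact ex_inj B hB0 (h2.trans (map_zero _).symm)
  · exfalso
    set Ψ : S := ∑ j : J × Fin M, (if Mt j.1 then
        io (Polynomial.monomial (lo j.1) ((c j).coeff (lo j.1))) *
          proj M j.2 (fn (G j.1) (m j.1) (i j.1)) else 0) with hΨ
    have h2 : B + k0 ≤ N := by
      by_contra hlt
      have h3 := congrArg (coeff N) h1
      rw [PowerSeries.coeff_X_pow_mul', if_neg hlt, PowerSeries.coeff_X_pow, if_pos rfl] at h3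
      exact zero_ne_one h3
    obtain ⟨r, rfl⟩ : ∃ r, N = B + k0 + r := ⟨N - (B + k0), by omega⟩
    have h3 := congrArg (coeff (B + k0 + r)) h1
    rw [PowerSeries.coeff_X_pow_mul', if_pos (by omega), Nat.add_sub_cancel_left,
      PowerSeries.coeff_X_pow, if_pos rfl] at h3
    have h4 : B ∣ r := by
      by_contra hnd
      rw [show ex B hB0 Ψ = PowerSeries.expand B hB0 Ψ from rfl, PowerSeries.coeff_expand,
        if_neg hnd] at h3
      exact zero_ne_one h3
    obtain ⟨r', rfl⟩ := h4
    apply h24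
    have h5 : (24 * (B + k0 + B * r') : ℤ) = E := by exact_mod_cast hN
    rw [hEz] at h5
    have h2 : (B : ℤ) = m j0 * e' j0 := by exact_mod_cast he j0
    have h6 : (e' j0 : ℤ) * (24 * (m j0 * r')) = e' j0 * (τ j0 - 24 * i j0 + 24 * m j0 * l0) := by
      linear_combination h5 - 24 * (r' : ℤ) * h2
    have h7 := mul_left_cancel₀ (by exact_mod_cast he0 j0 : (e' j0 : ℤ) ≠ 0) h6
    exact ⟨m j0 * r' + i j0 - m j0 * l0, by linear_combination -h7⟩

end Pool.Agent.Q36.AD
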