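import Pool.Agent.Q36.RD.Pat

set_option autoImplicit false

/-!
# Sums over dilates: the relation at another cusp
-/

namespace Pool.Agent.Q36.AD

open PowerSeries Pool.Agent.Q36.RD

/-- relation between the expansions at another cusp, for a general combination -/
theorem relation' {ι : Type*} {I : Finset ι} {x : ι → kk × ℚ} (hx : ∀ i ∈ I, Vc (x i)) (κ : ι → kk)
    {m n : ι → ℤ} {base : ℚ} {u : ℕ}
    (hsec : Sec base u (∑ i ∈ I, HahnSeries.single 0 (κ i) * wP (m i) (n i) (x i).1 (x i).2) = 0)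
    {σ : GG} (hσ : FixS σ) {g : ι → P}
    (hg : ∀ i ∈ I, ((σ (wK (m i) (n i) (x i)) : KK) : Om) = io (g i)) {e0 : ℚ} (he0 : Cl base u e0) :
    ∑ i ∈ I, κ i * (g i).coeff e0 = 0 := by
  set X : KK := ∑ i ∈ I, kc (κ i) * wK (m i) (n i) (x i) with hX
  have hmem : X ∈ K2 := by
    apply sum_mem
    intro i hi
    exact K2.mul_mem (kc_mem _) (wK_mem (m i) (n i) (hx i hi))
  have h2 : (X : Om) = io (∑ i ∈ I, HahnSeries.single 0 (κ i) *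
      wP (m i) (n i) (x i).1 (x i).2) := by
    rw [hX, coe_sum', map_sum]
    refine Finset.sum_congr rfl fun i hi => ?_
    rw [coe_mul', coe_kc, coe_wK (m i) (n i) (hx i hi), map_mul]
  have h3 : ((σ X : KK) : Om) = io (∑ i ∈ I, HahnSeries.single 0 (κ i) * g i) := by
    rw [hX, map_sum, coe_sum', map_sum]
    refine Finset.sum_congr rfl fun i hi => ?_
    rw [map_mul, act_kc, coe_mul', coe_kc, hg i hi, map_mul]
  have h4 := sec_zero hσ hmem h2 h3 hsec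
  have h5 := congrArg (fun f => HahnSeries.coeff f e0) h4
  rw [Sec_coeff, if_pos he0, HahnSeries.coeff_sum] at h5
  have h6 : ∑ i ∈ I, κ i * (g i).coeff e0 =
      ∑ i ∈ I, (HahnSeries.single 0 (κ i) * g i : P).coeff e0 := by
    refine Finset.sum_congr rfl fun i _ => ?_
    rw [HahnSeries.coeff_single_zero_mul]
  rw [h6]
  exact h5

theorem vc_down {Q : ℕ} (hQ : Odd Q) {ξ : kk} (hξ : ξ ^ (3 * Q) = 1) :
    RN Q (ξ ^ 3, 3 * (1 / ((3 * Q : ℕ) : ℚ))) := by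
  have hQq : (0 : ℚ) < Q := by exact_mod_cast hQ.pos
  have ha' : 3 * (1 / ((3 * Q : ℕ) : ℚ)) = 1 / (Q : ℚ) := by
    push_cast
    field_simp
  rw [ha']
  apply RN_down hQ
  rw [← pow_mul, hξ]

/-- the image of a power of the cube root -/
theorem image (σ : GG) {Q : ℕ} (hQ : Odd Q) {ξ : kk} (hξ : ξ ^ (3 * Q) = 1) (m : ℤ) :
    ∃ (Y : kk × ℚ) (g : P), RN Q Y ∧ σ (dK (ξ ^ 3, 3 * (1 / ((3 * Q : ℕ) : ℚ)))) = dK Y ∧
      ((σ (wK m 0 (ξ, 1 / ((3 * Q : ℕ) : ℚ))) : KK) : Om) = io g ∧ g ≠ 0 ∧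
      od g = m * (Y.2 / 3) := by
  have hR := vc_down hQ hξ
  obtain ⟨Y, hY1, hY2⟩ := RN.act σ hR
  have hVc : Vc (ξ, 1 / ((3 * Q : ℕ) : ℚ)) := hR.vx
  obtain ⟨η1, -, hA2, hA3⟩ := act_c σ hVc hY1.vx hY2
  have e1 := cP_ne hA2.pos.1 hA2.pos.2
  refine ⟨Y, cP η1 (Y.2 / 3) ^ m, hY1, hY2, ?_, zpow_ne_zero _ e1, ?_⟩
  · rw [wK, zpow_zero, mul_one, map_zpow₀, hA3, coe_zpow, coe_cK hA2, map_zpow₀]
  · simp only at e1 ⊢
    rw [od_zpow e1, od_cP hA2.pos.1 hA2.pos.2]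

/-- an automorphism whose largest pole is attained at one vertex only -/
theorem special {Q : ℕ} (hQ : Odd Q) : ∃ (σ : GG) (ξt : kk), FixS σ ∧ ξt ^ (3 * Q) = 1 ∧
    ∀ (ξ : kk) (Y : kk × ℚ), ξ ^ (3 * Q) = 1 → RN Q Y →
      σ (dK (ξ ^ 3, 3 * (1 / ((3 * Q : ℕ) : ℚ)))) = dK Y →
      (ξ ^ 3 = ξt ^ 3 → Y = (1, (Q : ℚ))) ∧ (ξ ^ 3 ≠ ξt ^ 3 → Y.2 < Q) := by
  have hQ0 : 0 < Q := hQ.pos
  have hQq : (0 : ℚ) < Q := by exact_mod_cast hQ0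
  have hNodd : Odd (3 * Q) := (by decide : Odd 3).mul hQ
  obtain ⟨σ0, g0⟩ := exists_good hNodd
  set σ : GG := σ0.symm with hσdef
  obtain ⟨ξt, hVt, hmt⟩ := g0.mv
  have hξt := root_of_mv hNodd hVt hmt
  have hσt : σ (dK (ξt, 1 / ((3 * Q : ℕ) : ℚ))) = dK (1, ((3 * Q : ℕ) : ℚ)) := by
    rw [hσdef, AlgEquiv.symm_apply_eq]
    exact hmt.symm
  have key : ∀ (ξ : kk) (Y : kk × ℚ), ξ ^ (3 * Q) = 1 → RN Q Y →
      σ (dK (ξ ^ 3, 3 * (1 / ((3 * Q : ℕ) : ℚ)))) = dK Y → ξ ^ 3 = ξt ^ 3 → Y = (1, (Q : ℚ)) := by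
    intro ξ Y hξ hY1 hY2 hξ3
    have hs : Stp 3 (ξ ^ 3, 3 * (1 / ((3 * Q : ℕ) : ℚ))) (ξt, 1 / ((3 * Q : ℕ) : ℚ)) := by
      refine Or.inr ⟨hξ3.symm, ?_⟩
      simp only
      push_cast
      ring
    obtain ⟨y', h1, h2⟩ := act_stp σ three_mem (vc_down hQ hξ).vx hY1.vx hY2 hs
    have h3 : y' = (1, ((3 * Q : ℕ) : ℚ)) :=
      dK_inj (hY1.vx.stp three_mem h1) (Vx_M hNodd) (h2.symm.trans hσt)
    subst h3
    rcases h1 with ⟨-, h4⟩ | ⟨-, h4⟩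
    · apply (hY1.le).2
      simp only at h4
      push_cast at h4
      linarith
    · exfalso
      have h5 := (hY1.le).1
      simp only at h4
      push_cast at h4
      linarith
  refine ⟨σ, ξt, g0.fixS.symm, hξt, fun ξ Y hξ hY1 hY2 => ⟨key ξ Y hξ hY1 hY2, fun hne => ?_⟩⟩
  refine lt_of_le_of_ne (hY1.le).1 fun h1 => ?_
  have h2 := (hY1.le).2 h1
  apply hne
  obtain ⟨Y', h3, h4⟩ := RN.act σ (vc_down hQ hξt)
  have h5 := key ξt Y' hξt h3 h4 rfl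
  have h6 : dK (ξ ^ 3, 3 * (1 / ((3 * Q : ℕ) : ℚ))) = dK (ξt ^ 3, 3 * (1 / ((3 * Q : ℕ) : ℚ))) := by
    apply σ.injective
    rw [hY2, h4, h2, h5]
  exact congrArg Prod.fst (dK_inj (vc_down hQ hξ).vx (vc_down hQ hξt).vx h6)

/-- orthogonality -/
theorem ortho {Q : ℕ} (hQ : Odd Q) {η : kk} (hη : IsPrimitiveRoot η (3 * Q)) (d : ℤ) :
    ∑ j ∈ Finset.range Q, (η ^ j) ^ (24 * d) = if (Q : ℤ) ∣ d then 1 else 0 := by
  have h1 : ∀ j ∈ Finset.range Q, (η ^ j) ^ (24 * d) = (η ^ (24 * d)) ^ j := by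
    intro j _
    rw [← zpow_natCast η, ← zpow_natCast (η ^ (24 * d)), ← zpow_mul, ← zpow_mul, mul_comm (j : ℤ)]
  rw [Finset.sum_congr rfl h1, geo hQ]
  · have d1 : ((3 * Q : ℕ) : ℤ) ∣ 24 * d ↔ (Q : ℤ) ∣ d := by
      push_cast
      rw [show 24 * d = 3 * (8 * d) by ring, mul_dvd_mul_iff_left (by norm_num : (3 : ℤ) ≠ 0)]
      constructor
      · intro h
        have hc : IsCoprime (Q : ℤ) 8 := by
          rw [show (8 : ℤ) = ((8 : ℕ) : ℤ) from rfl, Nat.isCoprime_iff_coprime]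
          rw [show 8 = 2 ^ 3 by norm_num]
          exact Nat.Coprime.pow_right _ (Nat.coprime_two_right.2 hQ)
        exact hc.dvd_of_dvd_mul_left h
      · intro h
        exact h.mul_left 8
    simp only [hη.zpow_eq_one_iff_dvd, d1]
  · rw [← zpow_natCast, ← zpow_mul, show 24 * d * (Q : ℤ) = ((3 * Q : ℕ) : ℤ) * (8 * d) by
      push_cast; ring, zpow_mul, zpow_natCast, hη.pow_eq_one, one_zpow]

/-- the coefficient at an integer index -/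
noncomputable def pz (f : S2) (z : ℤ) : ZMod 2 := if 0 ≤ z then coeff z.toNat f else 0

theorem inner1 {Q : ℕ} (hQ : Odd Q) {η : kk} (hη : IsPrimitiveRoot η (3 * Q)) {m : ℤ} {F : S2}
    (hF : EQ m 0 F) (k : ℤ) (k' : ℕ) {e : ℚ}
    (he : e = 1 / ((3 * Q : ℕ) : ℚ) * ((24 * k' + (m + 3 * 0) : ℤ) : ℚ)) :
    ∑ j ∈ Finset.range Q, (η ^ j) ^ (-(24 * k + m) : ℤ) *
      (wP m 0 (η ^ j) (1 / ((3 * Q : ℕ) : ℚ))).coeff e =
      (if (Q : ℤ) ∣ k' - k then 1 else 0) * algebraMap (ZMod 2) kk (coeff k' F) := by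
  have hη0 : η ≠ 0 := hη.ne_zero (by have := hQ.pos; omega)
  have ha : (0 : ℚ) < 1 / ((3 * Q : ℕ) : ℚ) := by
    have := hQ.pos
    positivity
  rw [← ortho hQ hη, Finset.sum_mul]
  refine Finset.sum_congr rfl fun j _ => ?_
  rw [he, wP_coeff hF (pow_ne_zero _ hη0) ha, ← mul_assoc, ← zpow_add₀ (pow_ne_zero _ hη0)]
  congr 2
  ring

theorem inner2 {Q : ℕ} (hQ : Odd Q) {η : kk} (hη : IsPrimitiveRoot η (3 * Q)) {m : ℤ} {F : S2}
    (hF : EQ m 0 F) (k : ℤ) {e : ℚ}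
    (he : ∀ k' : ℕ, e ≠ 1 / ((3 * Q : ℕ) : ℚ) * ((24 * k' + (m + 3 * 0) : ℤ) : ℚ)) :
    ∑ j ∈ Finset.range Q, (η ^ j) ^ (-(24 * k + m) : ℤ) *
      (wP m 0 (η ^ j) (1 / ((3 * Q : ℕ) : ℚ))).coeff e = 0 := by
  have hη0 : η ≠ 0 := hη.ne_zero (by have := hQ.pos; omega)
  have ha : (0 : ℚ) < 1 / ((3 * Q : ℕ) : ℚ) := by
    have := hQ.pos
    positivity
  apply Finset.sum_eq_zero
  intro j _
  rw [wP_coeff_not hF (pow_ne_zero _ hη0) ha he, mul_zero]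

end Pool.Agent.Q36.AD
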