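import Pool.Agent.Q36.AD.Core

set_option autoImplicit false

/-!
# No relation between the functions `∑ p_t(m n + i) q ^ n` with the same exponent
-/

namespace Pool.Agent.Q36.AD

open PowerSeries Pool.Agent.Q36.RD

theorem two_eq {a b : ℕ} {p q : ℤ} (hp : Odd p) (hq : Odd q) (h : (2 : ℤ) ^ a * p = 2 ^ b * q) :
    a = b := by
  wlog hab : a ≤ b generalizing a b p q
  · exact (this hq hp h.symm (by omega)).symm
  obtain ⟨c, rfl⟩ : ∃ c, b = a + c := ⟨b - a, by omega⟩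
  rw [pow_add, mul_assoc] at h
  have h1 := mul_left_cancel₀ (pow_ne_zero a (by norm_num : (2 : ℤ) ≠ 0)) h
  rcases c with _ | c
  · rfl
  · exfalso
    rw [h1, pow_succ] at hp
    apply Int.not_odd_iff_even.2 _ hp
    exact ⟨2 ^ c * q, by ring⟩

theorem core {ι : Type} [Fintype ι] [Nonempty ι] {m : ι → ℕ} (hm : ∀ i, 0 < m i)
    {t : ι → ℕ} (hinj : Function.Injective fun i => t i * m i) (ht : ∀ i, Odd (t i)) {F : ι → S2}
    (hF : ∀ i, EQ (-(t i : ℤ)) 0 (F i)) (k : ι → ℕ)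
    (hk : ∀ i j, (m j : ℤ) * (24 * k i - t i) = m i * (24 * k j - t j)) {M : ℕ} (hM : 0 < M)
    (hvan : ∀ ν : ℤ, ∑ i, pz (F i) (k i + m i * M * ν) = 0) : False := by
  classical
  obtain ⟨s, Mo, hMo, hMs⟩ := two_part M hM
  choose w b hb hmb using fun i => two_part (m i) (hm i)
  obtain ⟨i0, hi0⟩ := Finite.exists_max fun i => t i * m i
  have htz : ∀ i, Odd (t i : ℤ) := fun i => by exact_mod_cast ht i
  have hodd : ∀ i, Odd (24 * (k i : ℤ) - t i) := fun i => by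
    obtain ⟨c, hc⟩ := htz i
    exact ⟨12 * k i - c - 1, by rw [hc]; ring⟩
  have hbz : ∀ i, Odd (b i : ℤ) := fun i => by exact_mod_cast hb i
  have hw : ∀ i, w i = w i0 := by
    intro i
    have h1 := hk i i0
    rw [hmb i, hmb i0] at h1
    push_cast at h1
    refine (two_eq (p := b i0 * (24 * (k i : ℤ) - t i)) (q := b i * (24 * (k i0 : ℤ) - t i0))
      ((hbz i0).mul (hodd i)) ((hbz i).mul (hodd i0)) ?_).symm
    linear_combination h1
  set W := w i0 with hW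
  have hmb' : ∀ i, m i = 2 ^ W * b i := fun i => by rw [hmb i, hw i]
  have h2W : (2 : ℤ) ^ W ≠ 0 := by positivity
  have hkb : ∀ i, (b i0 : ℤ) * (24 * k i - t i) = b i * (24 * k i0 - t i0) := by
    intro i
    have h1 := hk i i0
    rw [hmb' i, hmb' i0] at h1
    push_cast at h1
    apply mul_left_cancel₀ h2W
    linear_combination h1
  -- the auxiliary number
  have hBM : Odd ((b i0 : ℤ) * Mo) := (hbz i0).mul (by exact_mod_cast hMo)
  obtain ⟨x, hx, hxd⟩ := sqrt2 (α := t i0 * ((b i0 : ℤ) * Mo) ^ 2) (β := t i0 - 24 * k i0)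
    ((htz i0).mul hBM.pow) (by
      obtain ⟨c, hc⟩ := odd_sq8 hBM
      refine ⟨t i0 * c + 3 * k i0, ?_⟩
      linear_combination (t i0 : ℤ) * hc) (W + s + 3)
  set X := x.natAbs with hX
  have hXo : Odd X := Int.natAbs_odd.2 hx
  have hX2 : (X : ℤ) ^ 2 = x ^ 2 := by rw [hX]; exact Int.natAbs_sq x
  set Q : ι → ℕ := fun i => b i * Mo * X with hQdef
  have hQ : ∀ i, Odd (Q i) := fun i => ((hb i).mul hMo).mul hXo
  have hQ0 : ∀ i, 0 < Q i := fun i => (hQ i).pos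
  have hQq : ∀ i, (0 : ℚ) < Q i := fun i => by exact_mod_cast hQ0 i
  have hmQ : ∀ i, (m i : ℤ) * M * X = Q i * 2 ^ (W + s) := by
    intro i
    rw [hmb' i, hMs, hQdef]
    push_cast
    ring
  obtain ⟨σ, ξt, hfix, hξt, hsp⟩ := special (hQ i0)
  have hN : ∀ i, Odd (3 * Q i) := fun i => (by decide : Odd 3).mul (hQ i)
  choose η hη using fun i => exists_prim (hN i)
  have hη0 : ∀ i, η i ≠ 0 := fun i => (hη i).ne_zero (by have := hQ0 i; omega)
  have hroot : ∀ (i : ι) (j : ℕ), (η i ^ j) ^ (3 * Q i) = 1 := by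
    intro i j
    rw [← pow_mul, mul_comm, pow_mul, (hη i).pow_eq_one, one_pow]
  have himg := fun p : (i : ι) × ℕ => image σ (hQ p.1) (hroot p.1 p.2) (-(t p.1 : ℤ))
  choose Y g hY1 hY2 hg1 hg2 hg3 using himg
  set I : Finset ((i : ι) × ℕ) := Finset.univ.sigma (fun i => Finset.range (Q i)) with hI
  set xx : (i : ι) × ℕ → kk × ℚ := fun p => (η p.1 ^ p.2, 1 / ((3 * Q p.1 : ℕ) : ℚ)) with hxx
  set κ : (i : ι) × ℕ → kk := fun p => (η p.1 ^ p.2) ^ (-(24 * (k p.1 : ℤ) + -(t p.1 : ℤ)) : ℤ)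
    with hκ
  set base : ℚ := 1 / ((3 * Q i0 : ℕ) : ℚ) * ((24 * (k i0 : ℤ) + (-(t i0 : ℤ) + 3 * 0) : ℤ) : ℚ)
    with hbase
  have hbi : ∀ i, base = 1 / ((3 * Q i : ℕ) : ℚ) *
      ((24 * (k i : ℤ) + (-(t i : ℤ) + 3 * 0) : ℤ) : ℚ) := by
    intro i
    have h1 : ((b i0 : ℚ)) * (24 * k i - t i) = b i * (24 * k i0 - t i0) := by exact_mod_cast hkb i
    have h2 : (0 : ℚ) < b i0 := by exact_mod_cast (hb i0).pos
    have h3 : (0 : ℚ) < b i := by exact_mod_cast (hb i).pos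
    have h4 : (0 : ℚ) < Mo := by exact_mod_cast hMo.pos
    have h5 : (0 : ℚ) < X := by exact_mod_cast hXo.pos
    rw [hbase, hQdef]
    push_cast
    field_simp
    linear_combination -h1
  have hsec : Sec base (W + s + 3)
      (∑ p ∈ I, HahnSeries.single 0 (κ p) * wP (-(t p.1 : ℤ)) 0 (xx p).1 (xx p).2) = 0 := by
    apply Sec_of_none
    intro e hne hcl
    apply hne
    have hcoe : (∑ p ∈ I, HahnSeries.single 0 (κ p) *
        wP (-(t p.1 : ℤ)) 0 (xx p).1 (xx p).2 : P).coeff e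
        = ∑ i, ∑ j ∈ Finset.range (Q i), (η i ^ j) ^ (-(24 * (k i : ℤ) + -(t i : ℤ)) : ℤ) *
          (wP (-(t i : ℤ)) 0 (η i ^ j) (1 / ((3 * Q i : ℕ) : ℚ))).coeff e := by
      rw [HahnSeries.coeff_sum, hI, Finset.sum_sigma]
      refine Finset.sum_congr rfl fun i _ => Finset.sum_congr rfl fun j _ => ?_
      rw [HahnSeries.coeff_single_zero_mul]
    rw [hcoe]
    by_contra hcon
    obtain ⟨i1, -, hi1⟩ := Finset.exists_ne_zero_of_sum_ne_zero hcon
    by_cases hex : ∃ k' : ℕ, e = 1 / ((3 * Q i1 : ℕ) : ℚ) *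
        ((24 * k' + (-(t i1 : ℤ) + 3 * 0) : ℤ) : ℚ)
    swap
    · push Not at hex
      exact hi1 (inner2 (hQ i1) (hη i1) (hF i1) (k i1) hex)
    obtain ⟨k', hk'⟩ := hex
    rw [inner1 (hQ i1) (hη i1) (hF i1) (k i1) k' hk'] at hi1
    have hdQ : (Q i1 : ℤ) ∣ k' - k i1 := by
      by_contra hnd
      rw [if_neg hnd, zero_mul] at hi1
      exact hi1 rfl
    have hN1 : 0 < 3 * Q i1 := by have := hQ0 i1; omega
    have hd2 : (2 ^ (W + s) : ℤ) ∣ k' - k i1 := by
      apply dvd_of_mem hN1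
      unfold Cl at hcl
      rw [hk', hbi i1] at hcl
      have h2 : (1 / ((3 * Q i1 : ℕ) : ℚ) * ((24 * (k' : ℤ) + (-(t i1 : ℤ) + 3 * 0) : ℤ) : ℚ) -
          1 / ((3 * Q i1 : ℕ) : ℚ) * ((24 * (k i1 : ℤ) + (-(t i1 : ℤ) + 3 * 0) : ℤ) : ℚ)) /
            2 ^ (W + s + 3) =
          (1 / ((3 * Q i1 : ℕ) : ℚ)) * (3 * (((k' : ℤ) - k i1 : ℤ) : ℚ)) / 2 ^ (W + s) := by
        rw [pow_add _ (W + s) 3]
        push_cast
        field_simp
        ring
      rwa [h2] at hcl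
    have hcop : IsCoprime (Q i1 : ℤ) (2 ^ (W + s)) := by
      apply IsCoprime.pow_right
      rw [show (2 : ℤ) = ((2 : ℕ) : ℤ) from rfl, Nat.isCoprime_iff_coprime]
      exact Nat.coprime_two_right.2 (hQ i1)
    obtain ⟨ν, hν⟩ := hcop.mul_dvd hdQ hd2
    have hEi : ∀ i, e = 1 / ((3 * Q i : ℕ) : ℚ) *
        ((24 * ((k i : ℤ) + m i * M * (X * ν)) + (-(t i : ℤ) + 3 * 0) : ℤ) : ℚ) := by
      intro i
      have h1 : ∀ i, 1 / ((3 * Q i : ℕ) : ℚ) *
          ((24 * ((k i : ℤ) + m i * M * (X * ν)) + (-(t i : ℤ) + 3 * 0) : ℤ) : ℚ) =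
          base + 8 * 2 ^ (W + s) * ν := by
        intro i
        have h3 : (24 * ((k i : ℤ) + m i * M * (X * ν)) + (-(t i : ℤ) + 3 * 0) : ℤ) =
            (24 * (k i : ℤ) + (-(t i : ℤ) + 3 * 0)) + 24 * (Q i * 2 ^ (W + s)) * ν := by
          rw [← hmQ i]
          ring
        have hq := hQq i
        rw [h3, hbi i]
        push_cast
        field_simp
        ring
      rw [h1 i, ← h1 i1]
      have h4 : ((k i1 : ℤ) + m i1 * M * (X * ν)) = k' := by
        have h5 := hmQ i1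
        linear_combination ν * h5 - hν
      rw [h4]
      exact hk'
    apply hcon
    have hS : ∀ i, ∑ j ∈ Finset.range (Q i), (η i ^ j) ^ (-(24 * (k i : ℤ) + -(t i : ℤ)) : ℤ) *
          (wP (-(t i : ℤ)) 0 (η i ^ j) (1 / ((3 * Q i : ℕ) : ℚ))).coeff e =
        algebraMap (ZMod 2) kk (pz (F i) (k i + m i * M * (X * ν))) := by
      intro i
      by_cases hz : 0 ≤ (k i : ℤ) + m i * M * (X * ν)
      · obtain ⟨k'', hk''⟩ := Int.eq_ofNat_of_zero_le hz
        have h1 := hEi i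
        rw [hk''] at h1
        rw [inner1 (hQ i) (hη i) (hF i) (k i) k'' h1, pz, if_pos hz, hk'', if_pos, one_mul,
          Int.toNat_natCast]
        refine ⟨2 ^ (W + s) * ν, ?_⟩
        have h5 := hmQ i
        linear_combination ν * h5 - hk''
      · rw [inner2 (hQ i) (hη i) (hF i) (k i), pz, if_neg hz, map_zero]
        intro k'' h1
        apply hz
        have h2 := hEi i
        rw [h1] at h2
        have hq := hQq i
        have h3 : (1 / ((3 * Q i : ℕ) : ℚ)) ≠ 0 := by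
          apply one_div_ne_zero
          have := hQ0 i
          exact_mod_cast (by omega : 3 * Q i ≠ 0)
        have h4 := mul_left_cancel₀ h3 h2
        have h5 : (24 * (k'' : ℤ) + (-(t i : ℤ) + 3 * 0)) =
          24 * ((k i : ℤ) + m i * M * (X * ν)) + (-(t i : ℤ) + 3 * 0) := by exact_mod_cast h4
        have h6 : (0 : ℤ) ≤ k'' := Int.natCast_nonneg _
        linarith
    rw [Finset.sum_congr rfl fun i _ => hS i, ← map_sum, hvan, map_zero]
  -- the pole
  set e0 : ℚ := (-(t i0 : ℤ) : ℤ) * ((Q i0 : ℚ) / 3) with he0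
  have hcl : Cl base (W + s + 3) e0 := by
    obtain ⟨c, hc⟩ := hxd
    refine ⟨3 * Q i0, ?_, -c, ?_⟩
    · intro h
      exact Nat.not_even_iff_odd.2 (hN i0) (even_iff_two_dvd.2 h)
    have h1 : (t i0 : ℤ) * (Q i0 : ℤ) ^ 2 - (t i0 - 24 * k i0) = 2 ^ (W + s + 3) * c := by
      rw [← hc, hQdef]
      push_cast
      rw [mul_pow _ (X : ℤ), hX2]
      ring
    have h2 : (t i0 : ℚ) * (Q i0 : ℚ) ^ 2 - (t i0 - 24 * k i0) = 2 ^ (W + s + 3) * c := by
      exact_mod_cast h1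
    have hq := hQq i0
    rw [he0, hbase]
    push_cast
    field_simp
    linear_combination -h2
  have hrel := relation' (I := I) (x := xx) (fun p _ => (vc_down (hQ p.1) (hroot p.1 p.2)).vx) κ
    hsec hfix (g := g) (fun p _ => hg1 p) hcl
  -- the special index
  have hη3 : IsPrimitiveRoot (η i0 ^ 3) (Q i0) := (hη i0).pow (by have := hQ0 i0; omega) rfl
  have : NeZero (Q i0) := ⟨(hQ0 i0).ne'⟩
  obtain ⟨jt, hjt, hyt⟩ := hη3.eq_pow_of_pow_eq_one (ξ := ξt ^ 3) (by rw [← pow_mul, hξt])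
  have htq : ∀ i, (0 : ℚ) < t i := fun i => by exact_mod_cast (ht i).pos
  rw [Finset.sum_eq_single (⟨i0, jt⟩ : (i : ι) × ℕ)] at hrel
  · have h1 : (η i0 ^ jt) ^ 3 = ξt ^ 3 := by
      rw [← hyt, ← pow_mul, ← pow_mul, mul_comm]
    have h2 := (hsp (η i0 ^ jt) (Y ⟨i0, jt⟩) (hroot i0 jt) (hY1 ⟨i0, jt⟩) (hY2 ⟨i0, jt⟩)).1 h1
    have h3 := hg3 ⟨i0, jt⟩
    rw [h2] at h3
    have h4 : e0 = (g ⟨i0, jt⟩).order := by
      unfold od at h3
      rw [h3]
    have h5 : (g ⟨i0, jt⟩).coeff e0 ≠ 0 := by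
      rw [h4]
      intro h6
      exact hg2 ⟨i0, jt⟩ (HahnSeries.coeff_order_eq_zero.1 h6)
    exact mul_ne_zero (zpow_ne_zero _ (pow_ne_zero _ (hη0 i0))) h5 hrel
  · rintro ⟨i, j⟩ hmem hne
    have hj : j < Q i := by
      rw [hI, Finset.mem_sigma, Finset.mem_range] at hmem
      exact hmem.2
    rw [HahnSeries.coeff_eq_zero_of_lt_order, mul_zero]
    have h3 := hg3 ⟨i, j⟩
    unfold od at h3
    rw [h3, he0]
    have hlt : (t i : ℚ) * (Y ⟨i, j⟩).2 < t i0 * Q i0 := by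
      by_cases hii : i = i0
      · subst hii
        refine mul_lt_mul_of_pos_left ?_ (htq i)
        refine (hsp (η i ^ j) (Y ⟨i, j⟩) (hroot i j) (hY1 ⟨i, j⟩) (hY2 ⟨i, j⟩)).2 ?_
        intro h4
        apply hne
        have h5 : (η i ^ 3) ^ j = (η i ^ 3) ^ jt := by
          rw [hyt, ← h4, ← pow_mul, ← pow_mul, mul_comm]
        rw [hη3.pow_inj hj hjt h5]
      · refine lt_of_le_of_lt (mul_le_mul_of_nonneg_left ((hY1 ⟨i, j⟩).le).1 (htq i).le) ?_
        have h4 : t i * m i < t i0 * m i0 := lt_of_le_of_ne (hi0 i) fun h => hii (hinj h)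
        rw [hmb' i, hmb' i0] at h4
        have h5 : t i * b i < t i0 * b i0 := by
          have h7 : 2 ^ W * (t i * b i) < 2 ^ W * (t i0 * b i0) := by
            calc 2 ^ W * (t i * b i) = t i * (2 ^ W * b i) := by ring
              _ < t i0 * (2 ^ W * b i0) := h4
              _ = 2 ^ W * (t i0 * b i0) := by ring
          exact lt_of_mul_lt_mul_left h7 (Nat.zero_le _)
        have h6 : t i * Q i < t i0 * Q i0 := by
          rw [hQdef]
          calc t i * (b i * Mo * X) = (t i * b i) * (Mo * X) := by ring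
            _ < (t i0 * b i0) * (Mo * X) :=
              Nat.mul_lt_mul_of_pos_right h5 (Nat.mul_pos hMo.pos hXo.pos)
            _ = t i0 * (b i0 * Mo * X) := by ring
        exact_mod_cast h6
    push_cast
    linarith
  · intro h
    exfalso
    apply h
    rw [hI, Finset.mem_sigma, Finset.mem_range]
    exact ⟨Finset.mem_univ _, hjt⟩

end Pool.Agent.Q36.AD
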