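import Pool.Agent.Q36.AD.Comp
import Pool.Agent.Q36.AD.Core2

set_option autoImplicit false

/-!
# Linear independence of the functions `∑ p_t(m n + i) q ^ n` over `F_2(q)`
-/

namespace Pool.Agent.Q36.AD

open PowerSeries Pool.Agent.TH693.PP Pool.Agent.TH693.QQ Pool.Agent.H397R2.PP Pool.Agent.Y517.PT
open Pool.Agent.Y627.PT Pool.Agent.Q36.AU

theorem coeff_term (l r M n : ℕ) (a : ZMod 2) (f : S) :
    coeff n (io (Polynomial.monomial l a) * proj M r f) =
      if l ≤ n ∧ (n - l) % M = r % M then a * coeff (n - l) f else 0 := by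
  have h1 : io (Polynomial.monomial l a) = algebraMap (ZMod 2) S a * X ^ l := by
    rw [← Polynomial.C_mul_X_pow_eq_monomial, map_mul, map_pow, QE2.io_C, QE2.io_X]
  rw [h1, mul_assoc, ← Algebra.smul_def, map_smul, PowerSeries.coeff_X_pow_mul', smul_eq_mul]
  by_cases h2 : l ≤ n
  · rw [if_pos h2, proj_coeff]
    by_cases h3 : (n - l) % M = r % M
    · rw [if_pos h3, if_pos ⟨h2, h3⟩]
    · rw [if_neg h3, if_neg (fun h => h3 h.2), mul_zero]
  · rw [if_neg h2, if_neg (fun h => h2 h.1), mul_zero]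

/-- the pairs of a dilate and a residue -/
abbrev JJ {Y : Type} (m : Y → ℕ) : Type := (x : Y) × Fin (m x)

theorem lin_all {Y : Type} [Fintype Y] {t : Y → ℕ} (ht : ∀ x, Odd (t x)) (m : Y → ℕ)
    (hm : ∀ x, 0 < m x) (hsep : ∀ x y, x ≠ y → t x * m x ≠ t y * m y ∨
      ¬ (24 : ℤ) ∣ t x * (m y / Nat.gcd (m x) (m y) : ℕ) - t y * (m x / Nat.gcd (m x) (m y) : ℕ))
    (B M : ℕ) (hB0 : B ≠ 0) (hmB : ∀ x, m x ∣ B) (hM : 0 < M)
    (c : JJ m × Fin M → F) (α : S) (hα : AlgX α)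
    (hrel : ∑ j : JJ m × Fin M, io (c j) *
      proj M j.2 (fn (Pool.Agent.TH693.PP.P ^ t j.1.1) (m j.1.1) j.1.2) + α = 0)
    (j0 : JJ m × Fin M) : c j0 = 0 := by
  classical
  by_contra hc0
  obtain ⟨l0, hl0⟩ : ∃ l, (c j0).coeff l ≠ 0 := by
    by_contra hcon
    push Not at hcon
    exact hc0 (Polynomial.ext fun n => by rw [hcon n, Polynomial.coeff_zero])
  choose e' he using hmB
  have he0 : ∀ x, e' x ≠ 0 := by
    intro x h
    have := he x
    rw [h, mul_zero] at this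
    exact hB0 this
  have hez : ∀ x, (e' x : ℤ) ≠ 0 := fun x => by exact_mod_cast he0 x
  have hmz : ∀ x, (m x : ℤ) ≠ 0 := fun x => by exact_mod_cast (hm x).ne'
  have hBz : ∀ x, (B : ℤ) = m x * e' x := fun x => by exact_mod_cast he x
  -- matching
  obtain ⟨U, hU⟩ : ∃ U : JJ m → ℕ → ℤ, ∀ j l, U j l =
      (e' j.1 : ℤ) * (((t j.1 : ℕ) : ℤ) * 1 - 24 * (j.2 : ℕ) + 24 * m j.1 * l) := ⟨_, fun _ _ => rfl⟩
  obtain ⟨Mt, hMt⟩ : ∃ Mt : JJ m → Prop, ∀ j, Mt j ↔ ∃ l, U j l = U j0.1 l0 := ⟨_, fun _ => Iff.rfl⟩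
  obtain ⟨lo, hlo1⟩ : ∃ lo : JJ m → ℕ, ∀ j, Mt j → U j (lo j) = U j0.1 l0 := by
    refine ⟨fun j => if h : ∃ l, U j l = U j0.1 l0 then h.choose else 0, fun j hj => ?_⟩
    have hj' := (hMt j).1 hj
    simp only
    rw [dif_pos hj']
    exact hj'.choose_spec
  have huniq : ∀ j l l', U j l = U j l' → l = l' := by
    intro j l l' h
    rw [hU, hU] at h
    have h1 := mul_left_cancel₀ (hez j.1) h
    have h2 : (24 * m j.1 : ℤ) * l = 24 * m j.1 * l' := by linarith
    have h3 := mul_left_cancel₀ (mul_ne_zero (by norm_num) (hmz j.1)) h2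
    exact_mod_cast h3
  have hmatch : ∀ (j : JJ m) (l : ℕ), U j l = U j0.1 l0 ↔ Mt j ∧ l = lo j := by
    intro j l
    constructor
    · intro h
      have hj : Mt j := (hMt j).2 ⟨l, h⟩
      exact ⟨hj, huniq j _ _ (h.trans (hlo1 j hj).symm)⟩
    · rintro ⟨hj, rfl⟩
      exact hlo1 j hj
  have hcomp := comp_rel (fun j : JJ m => Pool.Agent.TH693.PP.P ^ t j.1)
    (fun j => ((t j.1 : ℕ) : ℤ) * 1)
    (fun j => Pool.Agent.Y627.PT.sec_pow Pool.Agent.Y627.PT.sec_P (t j.1))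
    (fun j => m j.1) (fun j => j.2) (fun j => e' j.1) B M hB0 (fun j => he j.1) (fun j => j.2.2) hM
    c α hα hrel j0.1 (by
      rw [mul_one]
      obtain ⟨a, ha⟩ := ht j0.1.1
      omega) l0 Mt lo (fun j l => by
        rw [← hmatch, hU, hU])
  have hMt0 : Mt j0.1 := (hMt _).2 ⟨l0, rfl⟩
  have hlo0 : lo j0.1 = l0 := (((hmatch j0.1 l0).1 rfl).2).symm
  -- the residue
  obtain ⟨rr, hrr⟩ : ∃ rr : JJ m → Fin M, ∀ j, ((rr j : Fin M) : ℕ) =
      (j0.2 + l0 + (M - 1) * lo j) % M := ⟨fun j => ⟨(j0.2 + l0 + (M - 1) * lo j) % M,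
        Nat.mod_lt _ hM⟩, fun _ => rfl⟩
  have hres : ∀ (j : JJ m) (n : ℕ), n % M = (j0.2 + l0) % M → lo j ≤ n → (n - lo j) % M = rr j := by
    intro j n hn hle
    rw [hrr]
    have h1 : n - lo j + M * lo j = n + (M - 1) * lo j := by
      obtain ⟨M', rfl⟩ : ∃ M', M = M' + 1 := ⟨M - 1, by omega⟩
      rw [Nat.add_sub_cancel, add_mul, one_mul]
      omega
    have h2 : (n - lo j) % M = (n - lo j + M * lo j) % M := by
      rw [Nat.add_mul_mod_self_left]
    rw [h2, h1]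
    exact Nat.ModEq.add_right _ hn
  have hrr0 : rr j0.1 = j0.2 := by
    apply Fin.ext
    rw [hrr, hlo0]
    have h1 : (j0.2 : ℕ) + l0 + (M - 1) * l0 = j0.2 + M * l0 := by
      obtain ⟨M', rfl⟩ : ∃ M', M = M' + 1 := ⟨M - 1, by omega⟩
      rw [Nat.add_sub_cancel, add_mul, one_mul]
      omega
    rw [h1, Nat.add_mul_mod_self_left]
    exact Nat.mod_eq_of_lt j0.2.2
  obtain ⟨T, hT⟩ : ∃ T : JJ m → Prop, ∀ j, T j ↔ (Mt j ∧ (c (j, rr j)).coeff (lo j) ≠ 0) :=
    ⟨_, fun _ => Iff.rfl⟩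
  have hT0 : T j0.1 := (hT _).2 ⟨hMt0, by rw [hrr0, hlo0]; exact hl0⟩
  -- the relation at a natural number
  have hnat : ∀ n : ℕ, n % M = (j0.2 + l0) % M →
      ∑ j : {j : JJ m // T j}, (if lo j.1 ≤ n then
        coeff (m j.1.1 * (n - lo j.1) + (j.1.2 : ℕ)) (Pool.Agent.TH693.PP.P ^ t j.1.1) else 0) =
          0 := by
    intro n hn
    have h1 := congrArg (coeff n) hcomp
    rw [map_sum, map_zero, Fintype.sum_prod_type] at h1
    refine Eq.trans ?_ h1
    have h2 : ∀ j : JJ m, ∑ r : Fin M, coeff n (if Mt j then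
        io (Polynomial.monomial (lo j) ((c (j, r)).coeff (lo j))) *
          proj M r (fn (Pool.Agent.TH693.PP.P ^ t j.1) (m j.1) j.2) else 0) =
        if T j then (if lo j ≤ n then
          coeff (m j.1 * (n - lo j) + (j.2 : ℕ)) (Pool.Agent.TH693.PP.P ^ t j.1) else 0) else 0 := by
      intro j
      by_cases hj : Mt j
      · by_cases hle : lo j ≤ n
        · rw [Finset.sum_eq_single (rr j)]
          · rw [if_pos hj, coeff_term, if_pos ⟨hle, by
              rw [hres j n hn hle, Nat.mod_eq_of_lt (rr j).2]⟩, if_pos hle, fn, coeff_mk]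
            by_cases hcc : (c (j, rr j)).coeff (lo j) = 0
            · rw [hcc, zero_mul, if_neg (fun h => ((hT _).1 h).2 hcc)]
            · rw [if_pos ((hT _).2 ⟨hj, hcc⟩)]
              have : ∀ a : ZMod 2, a ≠ 0 → a = 1 := by decide
              rw [this _ hcc, one_mul]
          · intro r _ hr
            rw [if_pos hj, coeff_term, if_neg]
            rintro ⟨-, h3⟩
            apply hr
            apply Fin.ext
            rw [hres j n hn hle, Nat.mod_eq_of_lt r.2] at h3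
            exact h3.symm
          · intro h
            exact absurd (Finset.mem_univ _) h
        · rw [Finset.sum_eq_zero]
          · split_ifs <;> rfl
          · intro r _
            rw [if_pos hj, coeff_term, if_neg (fun h => hle h.1)]
      · rw [Finset.sum_eq_zero]
        · rw [if_neg (fun h => hj ((hT _).1 h).1)]
        · intro r _
          rw [if_neg hj, map_zero]
    refine Eq.trans ?_ (Finset.sum_congr rfl fun j _ => h2 j).symm
    refine Eq.trans ?_ (Finset.sum_filter _ _)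
    exact (Finset.sum_subtype (p := T) (Finset.univ.filter T) (by simp) (fun j : JJ m => if lo j ≤ n then
          coeff (m j.1 * (n - lo j) + (j.2 : ℕ)) (Pool.Agent.TH693.PP.P ^ t j.1) else 0)).symm
  -- the base point
  have : Nonempty {j : JJ m // T j} := ⟨⟨j0.1, hT0⟩⟩
  obtain ⟨L, hL⟩ : ∃ L : ℕ, L = ∑ j : JJ m, lo j := ⟨_, rfl⟩
  have hLle : ∀ j, lo j ≤ L := fun j => hL ▸
    Finset.single_le_sum (f := fun j => lo j) (fun _ _ => Nat.zero_le _) (Finset.mem_univ j)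
  obtain ⟨n0, hn0⟩ : ∃ n0 : ℕ, n0 = j0.2 + l0 + M * L := ⟨_, rfl⟩
  have hn0le : ∀ j, lo j ≤ n0 := by
    intro j
    have h1 := hLle j
    have h2 : L ≤ M * L := Nat.le_mul_of_pos_left _ hM
    omega
  refine Pool.Agent.Q36.AD.core (ι := {j : JJ m // T j}) (m := fun j => m j.1.1) (fun j => hm _)
    (t := fun j => t j.1.1) ?_ (fun j => ht j.1.1) (fun j => Pool.Agent.Q36.RD.EQ_P (t j.1.1))
    (fun j => m j.1.1 * (n0 - lo j.1) + (j.1.2 : ℕ)) ?_ hM ?_
  · -- injectivity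
    rintro ⟨⟨x, i⟩, h1⟩ ⟨⟨y, i'⟩, h2⟩ hxy
    simp only at hxy
    have h3 := (hlo1 _ ((hT _).1 h1).1).trans (hlo1 _ ((hT _).1 h2).1).symm
    rw [hU, hU] at h3
    simp only at h3
    have hxy' : x = y := by
      by_contra hne
      rcases hsep x y hne with h | h
      · exact h hxy
      · apply h
        set g := Nat.gcd (m x) (m y) with hg
        have hg0 : 0 < g := Nat.gcd_pos_of_pos_left _ (hm x)
        obtain ⟨a, ha⟩ := Nat.gcd_dvd_left (m x) (m y)
        obtain ⟨b, hb⟩ := Nat.gcd_dvd_right (m x) (m y)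
        rw [← hg] at ha hb
        have e1 : m x / g = a := by rw [ha, Nat.mul_div_cancel_left _ hg0]
        have e2 : m y / g = b := by rw [hb, Nat.mul_div_cancel_left _ hg0]
        rw [e1, e2]
        have a1 : (m x : ℤ) = g * a := by exact_mod_cast ha
        have a2 : (m y : ℤ) = g * b := by exact_mod_cast hb
        have hgz : (g : ℤ) ≠ 0 := by exact_mod_cast hg0.ne'
        have b3 : (m x : ℤ) * e' x = m y * e' y := by rw [← hBz x, ← hBz y]
        have b4 : (a : ℤ) * e' x = b * e' y := by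
          apply mul_left_cancel₀ hgz
          rw [a1, a2] at b3
          linear_combination b3
        have b5 : (b : ℤ) * ((t x : ℤ) * 1 - 24 * (i : ℕ) + 24 * m x * lo ⟨x, i⟩) =
            a * ((t y : ℤ) * 1 - 24 * (i' : ℕ) + 24 * m y * lo ⟨y, i'⟩) := by
          apply mul_left_cancel₀ (hez y)
          apply mul_left_cancel₀ (hez x)
          linear_combination (b * (e' y : ℤ)) * h3 -
            ((e' y : ℤ) * ((t y : ℤ) * 1 - 24 * (i' : ℕ) + 24 * m y * lo ⟨y, i'⟩)) * b4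
        exact ⟨b * (i : ℕ) - b * m x * lo ⟨x, i⟩ - a * (i' : ℕ) + a * m y * lo ⟨y, i'⟩, by
          linear_combination b5⟩
    subst hxy'
    have h4 := mul_left_cancel₀ (hez x) h3
    have h5 : ((i' : ℕ) : ℤ) - (i : ℕ) = m x * ((lo ⟨x, i'⟩ : ℤ) - lo ⟨x, i⟩) := by linarith
    have h6 : ((lo ⟨x, i'⟩ : ℤ) - lo ⟨x, i⟩) = 0 := by
      by_contra hne
      have h8 : 1 ≤ |((lo ⟨x, i'⟩ : ℤ) - lo ⟨x, i⟩)| := Int.one_le_abs hne
      have h9 : |((i' : ℕ) : ℤ) - (i : ℕ)| < m x := by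
        have q1 := i.2
        have q2 := i'.2
        rw [abs_lt]
        constructor <;> omega
      rw [h5, abs_mul, Nat.abs_cast] at h9
      have h10 : (0 : ℤ) < m x := by exact_mod_cast hm x
      nlinarith
    rw [h6, mul_zero] at h5
    have h7 : i = i' := Fin.ext (by omega)
    subst h7
    rfl
  · -- the exponents
    rintro ⟨⟨x, i⟩, h1⟩ ⟨⟨y, i'⟩, h2⟩
    have h3 := (hlo1 _ ((hT _).1 h1).1).trans (hlo1 _ ((hT _).1 h2).1).symm
    rw [hU, hU] at h3
    simp only at h3 ⊢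
    have a1 := hn0le ⟨x, i⟩
    have a2 := hn0le ⟨y, i'⟩
    have b1 := hBz x
    have b2 := hBz y
    push_cast [a1, a2]
    have hcan : ((e' x : ℤ) * e' y) ≠ 0 := mul_ne_zero (hez x) (hez y)
    apply mul_left_cancel₀ hcan
    have b3 : (m x : ℤ) * e' x = m y * e' y := by rw [← b1, ← b2]
    linear_combination (-((e' y : ℤ) * m y)) * h3 +
      ((e' y : ℤ) * ((t y : ℤ) * 1 - 24 * (i' : ℕ) + 24 * m y * lo ⟨y, i'⟩)) * b3
  · -- vanishing
    intro ν
    by_cases hneg : (0 : ℤ) ≤ n0 + M * ν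
    · obtain ⟨n, hn⟩ := Int.eq_ofNat_of_zero_le hneg
      have hmod : n % M = (j0.2 + l0) % M := by
        have h1 : (n : ℤ) ≡ ((j0.2 + l0 : ℕ) : ℤ) [ZMOD M] := by
          rw [Int.modEq_iff_dvd]
          refine ⟨-(L + ν), ?_⟩
          rw [← hn, hn0]
          push_cast
          ring
        exact (Int.natCast_modEq_iff.1 h1)
      refine Eq.trans ?_ (hnat n hmod)
      refine Finset.sum_congr rfl fun j _ => ?_
      have a1 := hn0le j.1
      have h2 : (((m j.1.1 * (n0 - lo j.1) + (j.1.2 : ℕ) : ℕ) : ℤ) + (m j.1.1 : ℤ) * M * ν) =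
          m j.1.1 * ((n : ℤ) - lo j.1) + (j.1.2 : ℕ) := by
        push_cast [a1]
        rw [← hn]
        ring
      rw [h2, pz]
      by_cases hle : lo j.1 ≤ n
      · rw [if_pos hle]
        have h3 : (m j.1.1 : ℤ) * ((n : ℤ) - lo j.1) + (j.1.2 : ℕ) =
            ((m j.1.1 * (n - lo j.1) + (j.1.2 : ℕ) : ℕ) : ℤ) := by push_cast [hle]; ring
        rw [h3, if_pos (Int.natCast_nonneg _), Int.toNat_natCast]
      · rw [if_neg hle, if_neg]
        push Not at hle ⊢
        have h3 : ((j.1.2 : ℕ) : ℤ) < m j.1.1 := by exact_mod_cast j.1.2.2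
        have h4 : (n : ℤ) - lo j.1 ≤ -1 := by
          have : (n : ℤ) < lo j.1 := by exact_mod_cast hle
          omega
        have h5 : (0 : ℤ) < m j.1.1 := by exact_mod_cast hm j.1.1
        nlinarith
    · refine Finset.sum_eq_zero fun j _ => ?_
      have a1 := hn0le j.1
      have h2 : (((m j.1.1 * (n0 - lo j.1) + (j.1.2 : ℕ) : ℕ) : ℤ) + (m j.1.1 : ℤ) * M * ν) =
          m j.1.1 * ((n0 + M * ν : ℤ) - lo j.1) + (j.1.2 : ℕ) := by
        push_cast [a1]
        ring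
      rw [h2, pz, if_neg]
      push Not at hneg ⊢
      have h3 : ((j.1.2 : ℕ) : ℤ) < m j.1.1 := by exact_mod_cast j.1.2.2
      have h4 : (n0 + M * ν : ℤ) - lo j.1 ≤ -1 := by
        have : (0 : ℤ) ≤ lo j.1 := Int.natCast_nonneg _
        omega
      have h5 : (0 : ℤ) < m j.1.1 := by exact_mod_cast hm j.1.1
      nlinarith

end Pool.Agent.Q36.AD
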