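import Pool.Agent.Q36.AD.Lin

set_option autoImplicit false

/-!
# Patterns of `p_t(m n + i)`, all dilates
-/

namespace Pool.Agent.Q36.AD

open PowerSeries Pool.Agent.TH693.PP Pool.Agent.TH693.QQ Pool.Agent.H397R2.PP Pool.Agent.Y517.PT
open Pool.Agent.Y627.PT Pool.Agent.Q36.AU

theorem main_all {Y Z : Type} [Fintype Y] [Fintype Z] {t : Y → ℕ} (ht : ∀ x, Odd (t x)) (m : Y → ℕ)
    (hm : ∀ x, 0 < m x) (hsep : ∀ x y, x ≠ y → t x * m x ≠ t y * m y ∨
      ¬ (24 : ℤ) ∣ t x * (m y / Nat.gcd (m x) (m y) : ℕ) - t y * (m x / Nat.gcd (m x) (m y) : ℕ))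
    (M : ℕ) (hM : 0 < M)
    (u : Z → ℕ → ZMod 2) (hu : ∀ z, (kernel (u z)).Finite) :
    ∃ C : ℕ, ∀ (K : ℕ) (c : Y → ℕ → ZMod 2) (c' : Z → ℕ → ZMod 2) (ρ : ℕ),
      (∃ x, ∃ i < K, c x i ≠ 0) →
      ∀ (κ : ZMod 2) (A : ℕ), ∃ n, A ≤ n ∧ n ≤ C * (A + K) ∧ n % M = ρ % M ∧
        ∑ x, ∑ i ∈ Finset.range K, c x i * coeff (m x * n + i) (Pool.Agent.TH693.PP.P ^ t x) +
          ∑ z, ∑ i ∈ Finset.range K, c' z i * u z (n + i) = κ := by
  classical
  set G : Y → S := fun x => Pool.Agent.TH693.PP.P ^ t x with hG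
  set B : ℕ := ∏ x, m x with hB
  have hB0 : B ≠ 0 := Finset.prod_ne_zero_iff.2 fun x _ => (hm x).ne'
  have hmB : ∀ x, m x ∣ B := fun x => Finset.dvd_prod_of_mem m (Finset.mem_univ x)
  set f : JJ m ⊕ Z → S :=
    Sum.elim (fun j => fn (G j.1) (m j.1) j.2) (fun z => PowerSeries.mk (u z)) with hf
  obtain ⟨C, hC⟩ := pat' f (fun j => j.isLeft = true) M hM
    (lfor_ex _ B hB0 (by
      rintro ⟨j | z, r⟩
      · exact alg_sections (fun j : JJ m => G j.1) (fun j => ((t j.1 : ℕ) : ℤ) * 1)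
          (fun j => Pool.Agent.Y627.PT.sec_pow Pool.Agent.Y627.PT.sec_P (t j.1))
          (fun j => m j.1) (fun j => j.2) B M hB0 (fun j => hmB j.1)
          (fun j => j.2.2) hM (j, r)
      · exact algOver_of_algX (algX_ex B hB0 (algX_proj (hu z) M r hM))))
    (by
      intro a b hrel
      rintro ⟨j | z, r⟩ hgood hne
      · rw [Fintype.sum_prod_type, Fintype.sum_sum_type] at hrel
        have halg : AlgX (∑ z : Z, ∑ r : Fin M, io (a (Sum.inr z, r)) *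
            proj M r (PowerSeries.mk (u z)) + io b) :=
          algX_add (algX_sum _ _ fun z _ => algX_sum _ _ fun r _ =>
            algX_mul (algX_io _) (algX_proj (hu z) M r hM)) (algX_io b)
        have h := lin_all ht m hm hsep B M hB0 hmB hM (fun j => a (Sum.inl j.1, j.2)) _ halg (by
            rw [Fintype.sum_prod_type, ← add_assoc]
            exact hrel) (j, r)
        exact h
      · exact absurd hgood (by simp))
  refine ⟨2 * C, fun K c cz ρ hc κ A => ?_⟩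
  set c' : (JJ m ⊕ Z) → Fin (K + 1) → ZMod 2 :=
    Sum.elim (fun j l => if m j.1 * l + j.2 < K then c j.1 (m j.1 * l + j.2) else 0)
      (fun z l => if (l : ℕ) < K then cz z l else 0) with hc'
  have hK : 0 < K := by
    obtain ⟨_, i0, hi0, -⟩ := hc
    omega
  obtain ⟨n, h1, h2, h4, h5⟩ := hC K c' ρ (by
    obtain ⟨x, i0, hi0, hne⟩ := hc
    have hpr : proj (m x * M) (m x * ρ + i0) (G x) ≠ 0 :=
      Pool.Agent.Q36.RD.P_proj_ne (t x) (ht x) _ (Nat.mul_pos (hm x) hM) _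
    have hlt := Nat.mod_lt i0 (hm x)
    have hdm := Nat.div_add_mod i0 (m x)
    have hle := Nat.div_le_self i0 (m x)
    refine ⟨Sum.inl ⟨x, ⟨i0 % m x, hlt⟩⟩, ⟨i0 / m x, by omega⟩, rfl, ?_, ?_⟩
    · rw [hc']
      simp only [Sum.elim_inl]
      rw [hdm, if_pos hi0]
      exact hne
    · rw [hf]
      simp only [Sum.elim_inl]
      intro h0
      apply hpr
      obtain ⟨e, he⟩ := hmB x
      have he0 : e ≠ 0 := by rintro rfl; exact hB0 (by rw [he, mul_zero])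
      have h6 := fn_rel (G x) (m x) (i0 % m x) e (ρ + i0 / m x) M B (by rw [he]; ring) hB0 he0 hlt
      rw [h0, map_zero, mul_zero] at h6
      have h7 := ex_inj e he0 ((map_zero (ex e he0)).trans h6)
      have h8 : m x * (ρ + i0 / m x) + i0 % m x = m x * ρ + i0 := by rw [mul_add]; omega
      rw [h8] at h7
      exact h7.symm) κ A
  refine ⟨n, h1, ?_, h4, ?_⟩
  · refine h2.trans ?_
    have : C * (A + K + 1) ≤ C * (2 * (A + K)) := Nat.mul_le_mul_left _ (by omega)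
    refine this.trans (le_of_eq ?_)
    ring
  · rw [← h5, Fintype.sum_sum_type, Fintype.sum_sigma]
    congr 1
    · refine Finset.sum_congr rfl fun x _ => ?_
      rw [← sum_split (m x) K (hm x) (fun i => c x i * coeff (m x * n + i) (G x)), Finset.sum_range]
      refine Finset.sum_congr rfl fun i0 _ => ?_
      rw [Finset.sum_range]
      refine Finset.sum_congr rfl fun l _ => ?_
      rw [hc', hf]
      simp only [Sum.elim_inl]
      rw [fn, coeff_mk, show m x * (n + (l : ℕ)) + (i0 : ℕ) = m x * n + (m x * l + i0) by ring]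
      split_ifs
      · rfl
      · rw [zero_mul]
    · refine Finset.sum_congr rfl fun z _ => ?_
      rw [hc', hf]
      simp only [Sum.elim_inr, coeff_mk]
      rw [Fin.sum_univ_castSucc]
      simp only [Fin.val_castSucc, Fin.is_lt, if_true, Fin.val_last, lt_irrefl, if_false, zero_mul,
        add_zero]
      rw [Finset.sum_range]

/-- all dilates in a finite set, without automatic sequences -/
theorem dilates {t : ℕ} (ht : Odd t) (𝓜 : Finset ℕ) (h0 : 0 ∉ 𝓜) (M : ℕ) (hM : 0 < M) :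
    ∃ C : ℕ, ∀ (K : ℕ) (c : ℕ → ℕ → ZMod 2) (ρ : ℕ), (∃ m ∈ 𝓜, ∃ i < K, c m i ≠ 0) →
      ∀ (κ : ZMod 2) (A : ℕ), ∃ n, A ≤ n ∧ n ≤ C * (A + K) ∧ n % M = ρ % M ∧
        ∑ m ∈ 𝓜, ∑ i ∈ Finset.range K, c m i * coeff (m * n + i) (Pool.Agent.TH693.PP.P ^ t) = κ := by
  classical
  have hpos : ∀ x : {x // x ∈ 𝓜}, 0 < (x : ℕ) := fun x =>
    Nat.pos_of_ne_zero fun h => h0 (h ▸ x.2)
  obtain ⟨C, hC⟩ := main_all (Y := {x // x ∈ 𝓜}) (Z := Empty) (t := fun _ => t) (fun _ => ht)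
    (fun x => (x : ℕ)) hpos (fun x y hxy => Or.inl fun h => hxy (Subtype.ext
      (Nat.eq_of_mul_eq_mul_left ht.pos h))) M hM (fun z => z.elim) (fun z => z.elim)
  refine ⟨C, fun K c ρ hc κ A => ?_⟩
  obtain ⟨n, h1, h2, h3, h4⟩ := hC K (fun x i => c x i) (fun z => z.elim) ρ (by
    obtain ⟨m, hm, i, hi, hci⟩ := hc
    exact ⟨⟨m, hm⟩, i, hi, hci⟩) κ A
  refine ⟨n, h1, h2, h3, ?_⟩
  rw [Finset.sum_of_isEmpty (Finset.univ : Finset Empty), add_zero] at h4
  rw [← h4]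
  exact (Finset.sum_coe_sort 𝓜 fun m => ∑ i ∈ Finset.range K,
    c m i * coeff (m * n + i) (Pool.Agent.TH693.PP.P ^ t)).symm

/-- pairs with distinct products `t_j m_j` -/
theorem products {k : ℕ} (t : Fin k → ℕ) (ht : ∀ j, Odd (t j)) (m : Fin k → ℕ) (hm : ∀ j, 0 < m j)
    (hsep : Function.Injective fun j => t j * m j) (M : ℕ) (hM : 0 < M) :
    ∃ C : ℕ, ∀ (K : ℕ) (c : Fin k → ℕ → ZMod 2) (ρ : ℕ), (∃ j, ∃ i < K, c j i ≠ 0) →
      ∀ (κ : ZMod 2) (A : ℕ), ∃ n, A ≤ n ∧ n ≤ C * (A + K) ∧ n % M = ρ % M ∧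
        ∑ j, ∑ i ∈ Finset.range K, c j i * coeff (m j * n + i) (Pool.Agent.TH693.PP.P ^ t j) = κ := by
  obtain ⟨C, hC⟩ := main_all (Z := Empty) ht m hm
    (fun x y hxy => Or.inl fun h => hxy (hsep h)) M hM (fun z => z.elim) (fun z => z.elim)
  refine ⟨C, fun K c ρ hc κ A => ?_⟩
  obtain ⟨n, h1, h2, h3, h4⟩ := hC K c (fun z => z.elim) ρ hc κ A
  rw [Finset.sum_of_isEmpty (Finset.univ : Finset Empty), add_zero] at h4
  exact ⟨n, h1, h2, h3, h4⟩

end Pool.Agent.Q36.AD
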